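import Pool.Agent.Lib.MP_442e5a_an.AllDim

/-!
For every `m ≥ 2` there is a function in the Hardy space of the Siegel tube domain whose
hyper-unrestricted maximal function is infinite on a set of positive measure.
-/

open MeasureTheory

namespace Pool.Agent.Results.MP_442e5a_an.EveryDimension

open Pool.Agent.Lib.MP_442e5a_an

theorem result (m : ℕ) (hm : 2 ≤ m) (E : Type) [NormedAddCommGroup E] [NormedSpace ℝ E]
    [MeasurableSpace E] [BorelSpace E] (μ : Measure E) [μ.IsAddHaarMeasure]
    (ι : E → Fin m → Fin m → ℝ) (hι : IsParam ι) :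
    ∃ F : (Fin m → Fin m → ℂ) → ℂ, Holo F ∧ hardySq μ ι F < ⊤ ∧
      ∃ S : Set E, MeasurableSet S ∧ 0 < μ S ∧ ∀ e ∈ S, maxH F (ι e) = ⊤ := by
  obtain ⟨n, rfl⟩ := Nat.exists_eq_add_of_le hm
  exact exists_counterexample_all n μ hι

end Pool.Agent.Results.MP_442e5a_an.EveryDimension
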